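import Pool.Agent.Run7.h246.LP.Apps

set_option autoImplicit false

/-!
# Large least primes in the classes of all entries of products of powers of matrices modulo a prime

Write `f(x) = log x (log₂ x)² log₄ x / (log₃ x)²` for the record size of prime-free intervals and let `p` be a large
prime modulus.  Consider the products `A_1 ^ e_1 ⋯ A_r ^ e_r` of powers of invertible `k × k` matrices modulo `p`, with
exponents `|e_i| ≤ m`, not all zero, and `n` linear functionals `tr (H_j · )` of such products; functionals of the
same product are supposed to be linearly independent.  Examples: all entries of all these products (for `r = 1`, all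
entries of the powers `A, A², …, A ^ m` and of their inverses), or the traces of all these products.  For a proportion
of at least `p ^ (-δ)` of all the tuples `(A_1, …, A_r)` all these `n` residue classes modulo `p` have a large least
prime: it is greater than `κ p f(p)`.  More precisely this holds for a proportion `p ^ (-δ) ∏ (L_j / p)` of the tuples
if the classes are also required to have representatives in prescribed intervals `(M_j, M_j + L_j]` inside
`[p ^ δ, p]` with `L_j ≥ p ^ δ` and `∏ L_j ≥ p ^ (n - 1/2 + δ)`.

The proof: scalar matrices act on the tuples, the products of different exponents have different weights under a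
suitable torus; so the exponential sums over all tuples are averages of sums of Laurent polynomials of one variable,
which are bounded by Weil's theorem, except for the tuples with `tr (H A_1 ^ e_1 ⋯ A_r ^ e_r) = 0` for some fixed
`H ≠ 0`; these are counted by lines through idempotent matrices.  Then the criterion of helper647 (`N647.FG`),
transferred to progressions with difference `p`, applies.
-/

namespace Pool.Agent.Results.MP_e1dc24_nt.MatrixEntryClasses

open Finset Matrix

/-- The record scale `f(x) = log x (log₂ x)² log₄ x / (log₃ x)²` (iterated natural logarithms). -/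
noncomputable def f (x : ℝ) : ℝ :=
  Real.log x * (Real.log (Real.log x)) ^ 2 * Real.log (Real.log (Real.log (Real.log x))) /
    (Real.log (Real.log (Real.log x))) ^ 2

/-- The product `A_1 ^ e_1 ⋯ A_r ^ e_r` (in this order). -/
def Word {r k p : ℕ} (A : Fin r → GL (Fin k) (ZMod p)) (e : Fin r → ℤ) : GL (Fin k) (ZMod p) :=
  (List.ofFn fun i => A i ^ e i).prod

/-- For every exponent vector `v` the matrices `H j` with `e j = v` are linearly independent. -/
def Independent {n r k p : ℕ} (e : Fin n → Fin r → ℤ)
    (H : Fin n → Matrix (Fin k) (Fin k) (ZMod p)) : Prop :=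
  ∀ α : Fin n → ZMod p, α ≠ 0 → ∃ v, ∑ j with e j = v, α j • H j ≠ 0

/-- **Large least primes in the classes of the entries of products of powers of matrices modulo primes.** -/
theorem result (n r k m : ℕ) (hn : 1 ≤ n) (δ : ℝ) (hδ : 0 < δ) (hδ1 : δ ≤ 1) :
    ∃ κ : ℝ, 0 < κ ∧ ∃ p₀ : ℕ, ∀ p : ℕ, p₀ ≤ p → p.Prime →
      ∀ e : Fin n → Fin r → ℤ, (∀ j, e j ≠ 0 ∧ ∀ i, |e j i| ≤ m) →
      ∀ H : Fin n → Matrix (Fin k) (Fin k) (ZMod p), Independent e H →
      ∀ (M : Fin n → ℤ) (L : Fin n → ℕ),
        (∀ j, (p : ℝ) ^ δ ≤ M j ∧ (p : ℝ) ^ δ ≤ L j ∧ M j + L j ≤ p) →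
        (p : ℝ) ^ ((n : ℝ) - 1 / 2 + δ) ≤ ∏ j, (L j : ℝ) →
      (p : ℝ) ^ (-δ) * ((Nat.card (GL (Fin k) (ZMod p)) : ℝ) ^ r * ∏ j, ((L j : ℝ) / p)) ≤
        ({A : Fin r → GL (Fin k) (ZMod p) | ∀ j, ∃ c : ℤ, M j < c ∧ c ≤ M j + L j ∧
          (c : ZMod p) = trace (H j * ((Word A (e j) : GL (Fin k) (ZMod p)) :
            Matrix (Fin k) (Fin k) (ZMod p))) ∧
          ∀ q : ℕ, q.Prime → (q : ℤ) ≡ c [ZMOD p] → κ * p * f p < q}.ncard : ℝ) := by
  obtain ⟨κ, hκ, p₀, h⟩ := Pool.Agent.Run7.h246.LP.class_mat n r k m hn δ hδ hδ1
  exact ⟨κ, hκ, p₀, fun p hpp hp e he H hH M L hL hvol => h p hpp hp e he H hH M L hL hvol⟩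

end Pool.Agent.Results.MP_e1dc24_nt.MatrixEntryClasses
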