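import Pool.Agent.Run7.h246.LP.Rat

set_option autoImplicit false

/-!
# Large least primes in all the residue classes `R_1(x), …, R_r(x)` modulo a prime at the same time

Write `f(x) = log x (log₂ x)² log₄ x / (log₃ x)²` for the record size of prime-free intervals and let `m` be a large
prime.  Let `R_1, …, R_r` be rational functions over the field with `m` elements, of degree at most `m ^ (δ/4)`, such
that no nontrivial linear combination of them is constant; for instance `x, x², …, x ^ r`, or `x` and the inverses of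
`x + c_1, …, x + c_k` for distinct residues `c_i`.  For at least `m ^ (1 - δ)` of the residues `x` modulo `m` ALL the
classes `R_1(x), …, R_r(x)` modulo `m` have a large least prime: it is greater than `κ m f(m)`.  More precisely, this
happens for at least `m ^ (1 - δ) ∏ (L_j / m)` residues `x` for which the least positive member of the class `R_j(x)` is
in `(M_j, M_j + L_j]`, for all intervals of this form inside `[m ^ δ, m]` with `L_j ≥ m ^ δ` and
`∏ L_j ≥ m ^ (r - 1/2 + δ)`.

Results of this kind were known for one class, for classes in short intervals and for several classes `± α b`; here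
the classes are related by arbitrary algebraic functions, for example a class and its inverse.  The proof uses Weil's
bound for the exponential sums of arbitrary rational functions over prime fields (`Pool.Agent.Run7.h90.RW`), and the
criterion of helper647 (`N647.FG`) and the covering criterion `Y961.JR.critJ`, transferred to progressions.
-/

namespace Pool.Agent.Results.MP_e1dc24_nt.RationalFunctionClasses

open Finset Polynomial

/-- The record scale `f(x) = log x (log₂ x)² log₄ x / (log₃ x)²` (iterated natural logarithms). -/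
noncomputable def f (x : ℝ) : ℝ :=
  Real.log x * (Real.log (Real.log x)) ^ 2 * Real.log (Real.log (Real.log (Real.log x))) /
    (Real.log (Real.log (Real.log x))) ^ 2

/-- No nontrivial linear combination of the rational functions `a j / b j` is constant. -/
def Independent {m r : ℕ} (a b : Fin r → (ZMod m)[X]) : Prop :=
  ∀ α : Fin r → ZMod m, α ≠ 0 → ∀ c : ZMod m,
    ∑ j, C (α j) * a j * ∏ i ∈ univ.erase j, b i ≠ C c * ∏ j, b j

/-- **Large least primes in the classes `R_1(x), …, R_r(x)` modulo a prime.** -/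
theorem result (r : ℕ) (hr : 1 ≤ r) (δ : ℝ) (hδ : 0 < δ) (hδ1 : δ ≤ 1) :
    ∃ κ : ℝ, 0 < κ ∧ ∃ m₀ : ℕ, ∀ m : ℕ, m₀ ≤ m → m.Prime →
      ∀ D : ℕ, (D : ℝ) ≤ (m : ℝ) ^ (δ / 4) →
      ∀ a b : Fin r → (ZMod m)[X], (∀ j, (a j).natDegree ≤ D) → (∀ j, (b j).natDegree ≤ D) →
      (∀ j, b j ≠ 0) → Independent a b →
      ∀ (M : Fin r → ℤ) (L : Fin r → ℕ),
        (∀ j, (m : ℝ) ^ δ ≤ M j ∧ (m : ℝ) ^ δ ≤ L j ∧ M j + L j ≤ m) →
        (m : ℝ) ^ ((r : ℝ) - 1 / 2 + δ) ≤ ∏ j, (L j : ℝ) →
      (m : ℝ) ^ (1 - δ) * ∏ j, ((L j : ℝ) / m) ≤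
        ({x : ZMod m | ∀ j, (b j).eval x ≠ 0 ∧ ∃ c : ℤ, M j < c ∧ c ≤ M j + L j ∧
          (c : ZMod m) * (b j).eval x = (a j).eval x ∧
          ∀ q : ℕ, q.Prime → (q : ℤ) ≡ c [ZMOD m] → κ * m * f m < q}.ncard : ℝ) := by
  obtain ⟨κ, hκ, p₀, h⟩ := Pool.Agent.Run7.h246.LP.rat_mainS r hr δ hδ hδ1
  refine ⟨κ, hκ, p₀, ?_⟩
  intro m hm0 hm D hD a b ha hb hb0 hind M L hML hvol
  have : Fact m.Prime := ⟨hm⟩
  have hm1 : (1 : ℝ) < m := by exact_mod_cast hm.one_lt
  have hm1' : (0 : ℝ) < m := by linarith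
  by_cases hδ' : δ = 1
  · exfalso
    subst hδ'
    have hj : Nonempty (Fin r) := ⟨⟨0, hr⟩⟩
    obtain ⟨j⟩ := hj
    obtain ⟨h1, h2, h3⟩ := hML j
    rw [Real.rpow_one] at h1 h2
    have h4 : (M j : ℝ) + L j ≤ m := by exact_mod_cast h3
    linarith
  have hδlt : δ < 1 := lt_of_le_of_ne hδ1 hδ'
  have h1 := h m hm0 hm D hD a b ha hb hb0 hind (fun _ => (m : ℤ)) (by
    intro _ l hl hlm hd
    have h2 : l ∣ m := by exact_mod_cast hd
    rw [(Nat.prime_dvd_prime_iff_eq hl hm).1 h2] at hlm
    have h3 : (m : ℝ) ^ δ < (m : ℝ) ^ (1 : ℝ) := Real.rpow_lt_rpow_of_exponent_lt hm1 hδlt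
    rw [Real.rpow_one] at h3
    linarith) M L (fun j => (hML j).2.1) (fun j => by
      have h2 := (hML j).2.2
      have h3 : (0 : ℝ) < M j := lt_of_lt_of_le (Real.rpow_pos_of_pos hm1' _) (hML j).1
      have h4 : (0 : ℤ) < M j := by exact_mod_cast h3
      omega) hvol
  refine h1.trans ?_
  refine Nat.cast_le.2 (Set.ncard_le_ncard ?_ (Set.toFinite _))
  intro x hx j
  obtain ⟨h2, c, h3, h4, h5, h6⟩ := hx j
  refine ⟨h2, c, h3, h4, h5, fun q hq hqc => ?_⟩
  have h7 : (m : ℝ) ^ δ < c := lt_of_le_of_lt (hML j).1 (by exact_mod_cast h3)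
  have h8 := Pool.Agent.Run7.h246.LP.noprime hm h7 (h4.trans (hML j).2.2) h6 q hq hqc
  refine lt_of_le_of_lt (le_of_eq ?_) h8
  change κ * m * f m = κ * f m * m
  ring

end Pool.Agent.Results.MP_e1dc24_nt.RationalFunctionClasses
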