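import Pool.Agent.Run7.h823.BKC

set_option autoImplicit false

/-!
# Large least primes in the classes of short linear recurrences modulo primes

Write `f(x) = log x (log₂ x)² log₄ x / (log₃ x)²` for the record size of prime-free intervals, let `m` be a
large prime and `p(c, m)` the least prime in the class of `c` modulo `m`.

(1) Let `g_1, …, g_k` be residues modulo `m` such that all the `g_i` and all the quotients `g_i / g_j`, `i ≠ j`,
have order `≥ m ^ ε`, let `u_j(n) = ∑ c_ji g_i ^ n`, `j ≤ r`, be `r` linear recurrences with linearly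
independent rows of coefficients, and let `N ≥ m ^ ε`.  For at least `N m ^ (-ε)` of the `n < N` one has
`p(u_j(n), m) > κ m f(m)` for ALL `j`; moreover the classes `u_j(n)` can be required to have their
representatives in any prescribed intervals of length `≥ m ^ (1 - δ)` inside `[m ^ ε, m]`.  In particular:
`r` geometric progressions `x_j g_j ^ n`, or `k` consecutive terms of one linear recurrence of order `k`.

(2) Let `b_1, …, b_r ≥ 2` be distinct integers.  All but `C X ^ ε` of the primes `m ≤ X` have the following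
property: for every `N ≥ m ^ ε` and all `x_j ≠ 0` the same holds for the classes `x_j b_j ^ n`, `n < N`: for
example the first `m ^ ε` powers of two contain many classes modulo `m` with a large least prime, and so do
the triples `(2 ^ n, 3 ^ n, 5 ^ n)`.

Proof: the exponential sum bound of Bourgain and of Bourgain, Glibichuk and Konyagin for families of vectors
with many multiplicative almost periods (`Pool.Agent.Run7.h823.BK`) and the criterion of helper246
(`Run7.h246.LP`, after helper647) for progressions through the members of families.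
-/

namespace Pool.Agent.Results.MP_e1dc24_nt.ShortRecurrenceClasses

open Finset

/-- The record scale `f(x) = log x (log₂ x)² log₄ x / (log₃ x)²` (iterated natural logarithms). -/
noncomputable def f (x : ℝ) : ℝ :=
  Real.log x * (Real.log (Real.log x)) ^ 2 * Real.log (Real.log (Real.log (Real.log x))) /
    (Real.log (Real.log (Real.log x))) ^ 2

open scoped Classical in
/-- For all intervals `(M_j, M_j + L_j]` inside `[m ^ ε, m]` of length at least `m ^ (1 - δ)` at least
`|s| m ^ (-ε)` of the vectors `v_i`, `i ∈ s`, have the following property: for all `j` the class `v_ij` modulo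
`m` has its representative in `(M_j, M_j + L_j]` and contains no prime `≤ κ m f(m)`. -/
def ManyLarge (κ ε δ : ℝ) (m : ℕ) {ι : Type} {r : ℕ} (s : Finset ι) (v : ι → Fin r → ZMod m) :
    Prop :=
  ∀ (M : Fin r → ℤ) (L : Fin r → ℕ),
    (∀ j, (m : ℝ) ^ ε ≤ M j ∧ (m : ℝ) ^ (1 - δ) ≤ L j ∧ M j + L j ≤ m) →
    s.card * (m : ℝ) ^ (-ε) ≤ ((s.filter fun i => ∀ j, ∃ c : ℤ, M j < c ∧ c ≤ M j + L j ∧
      (c : ZMod m) = v i j ∧ ∀ q : ℕ, q.Prime → (q : ℤ) ≡ c [ZMOD m] → κ * m * f m < q).card : ℝ)

/-- **Large least primes in the classes of short linear recurrences modulo primes.** -/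
theorem result (r : ℕ) (hr : 1 ≤ r) (ε : ℝ) (hε : 0 < ε) :
    (∀ k : ℕ, ∃ κ : ℝ, 0 < κ ∧ ∃ δ : ℝ, 0 < δ ∧ ∃ m₀ : ℕ,
      ∀ (m : ℕ) [Fact m.Prime], m₀ ≤ m →
      ∀ (c : Fin r → Fin k → ZMod m) (g : Fin k → (ZMod m)ˣ) (N : ℕ),
        LinearIndependent (ZMod m) c → (∀ i, (m : ℝ) ^ ε ≤ orderOf (g i)) →
        (∀ i j, i ≠ j → (m : ℝ) ^ ε ≤ orderOf (g i / g j)) → (m : ℝ) ^ ε ≤ N →
        ManyLarge κ ε δ m (range N) (fun n j => ∑ i, c j i * (g i : ZMod m) ^ n)) ∧
    (∃ κ : ℝ, 0 < κ ∧ ∃ δ : ℝ, 0 < δ ∧ ∀ b : Fin r → ℕ, (∀ j, 2 ≤ b j) → Function.Injective b →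
      ∃ C : ℝ, ∀ X : ℕ, 1 ≤ X → ∀ Q : Finset ℕ,
        (∀ m ∈ Q, m.Prime ∧ m ≤ X ∧ ¬ ∀ N : ℕ, (m : ℝ) ^ ε ≤ N → ∀ x : Fin r → ZMod m,
          (∀ j, x j ≠ 0) →
          ManyLarge κ ε δ m (range N) (fun n j => x j * (b j : ZMod m) ^ n)) →
        (Q.card : ℝ) ≤ C * (X : ℝ) ^ ε) :=
  ⟨fun k => Pool.Agent.Run7.h823.BK.class_recurrences r k hr hε,
    Pool.Agent.Run7.h823.BK.class_primes r hr hε⟩

end Pool.Agent.Results.MP_e1dc24_nt.ShortRecurrenceClasses
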